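import Pool.Agent.U696.MO.One
import Pool.Agent.U696.MO.Num

/-!
# MP_a4cf75_mp, Q1: the norm hierarchy for moment operators of random quantum channels

For all `d, d_E, t, k ≥ 1` and every unit vector `ψ` of the environment,
`1 = ‖T_Dep‖² ≤ N_{t,k}(d, d_E) ≤ ‖T_Haar‖²`.

Idea of the proof of the right inequality (`d_E ≥ 2`). The Choi matrix `C` of the moment operator
of `cHaar(d, d_E)` satisfies `0 ≤ C ≤ κ` with `κ = d_E^{(t)} / e`, where `d_E^{(t)}` is the rising
factorial and `e` is the content product of the most balanced Young diagram with `t` boxes and at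
most `d` rows, shifted by `n = d d_E`.  These bounds pass to the powers, since the maps are trace
preserving, and `tr C = d^t`; hence `N_{t,k} ≤ κ d^t`.  The norm of the Haar moment operator is
at least the dimension `r_t` of the span of the permutation operators, for which
`r_t = t!` (`t ≤ d`) and `r_{t+1} (d² + t) ≥ (t+1) d² r_t`; and `κ d^t ≤ r_t` by an elementary
induction.  For `d_E = 1` both moment operators agree.
-/

open Matrix MeasureTheory
open scoped BigOperators ComplexConjugate

namespace Pool.Agent.Results.MP_a4cf75_mp.NormHierarchy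

open Pool.Agent.V11219.MomentOp Pool.Agent.U696.MO

/-- The completely depolarizing channel `X ↦ Tr(X) I_d / d` on `M_d`. -/
noncomputable def depolarize (d : ℕ) : Mat d →ₗ[ℂ] Mat d where
  toFun X := (X.trace / (d : ℂ)) • (1 : Mat d)
  map_add' X Y := by rw [Matrix.trace_add, add_div, add_smul]
  map_smul' c X := by rw [Matrix.trace_smul, smul_eq_mul, mul_div_assoc, mul_smul]; rfl

/-- The unitary channel `X ↦ U X U†` on `M_d`. -/
noncomputable def unitaryChannel {d : ℕ} (U : Matrix (Fin d) (Fin d) ℂ) : Mat d →ₗ[ℂ] Mat d where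
  toFun X := U * X * Uᴴ
  map_add' X Y := by rw [Matrix.mul_add, Matrix.add_mul]
  map_smul' c X := by simp

lemma dep_norm {d t : ℕ} (hd : 1 ≤ d) :
    hsNormSq (momentOp (Measure.dirac ()) t (fun _ : Unit => depolarize d)) = 1 := by
  have hd0 : (d : ℝ) ≠ 0 := by positivity
  have h1 : ∀ i j k l : Fin t → Fin d,
      ‖momentOp (Measure.dirac ()) t (fun _ : Unit => depolarize d) (Matrix.single i j 1) k l‖ ^ 2 =
      if i = j ∧ k = l then (((d : ℝ) ^ t) ^ 2)⁻¹ else 0 := by
    intro i j k l
    rw [momentOp_single, integral_dirac, tensorPow_single]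
    have h2 : ∀ s, depolarize d (Matrix.single (i s) (j s) 1) (k s) (l s) =
        if i s = j s ∧ k s = l s then ((d : ℂ))⁻¹ else 0 := by
      intro s
      simp only [depolarize, LinearMap.coe_mk, AddHom.coe_mk, Matrix.smul_apply, smul_eq_mul]
      by_cases h : i s = j s
      · rw [h, Matrix.trace_single_eq_same]
        by_cases h' : k s = l s
        · simp [h', Matrix.one_apply]
        · simp [h', Matrix.one_apply]
      · rw [Matrix.trace_single_eq_of_ne _ _ _ h]
        simp [h]
    simp only [h2]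
    by_cases h : i = j ∧ k = l
    · obtain ⟨rfl, rfl⟩ := h
      simp
    · rw [if_neg h]
      have : ∃ s, ¬ (i s = j s ∧ k s = l s) := by
        by_contra hcon
        push Not at hcon
        exact h ⟨funext fun s => (hcon s).1, funext fun s => (hcon s).2⟩
      obtain ⟨s, hs⟩ := this
      rw [Finset.prod_eq_zero (Finset.mem_univ s) (by rw [if_neg hs])]
      simp
  unfold hsNormSq
  simp only [h1]
  have h3 : ∀ i : Fin t → Fin d, ∑ j : Fin t → Fin d, ∑ k : Fin t → Fin d, ∑ l : Fin t → Fin d,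
      (if i = j ∧ k = l then (((d : ℝ) ^ t) ^ 2)⁻¹ else 0) = ((d : ℝ) ^ t)⁻¹ := by
    intro i
    rw [Finset.sum_eq_single i]
    · simp
      field_simp
    · intro j _ hj
      refine Finset.sum_eq_zero fun k _ => Finset.sum_eq_zero fun l _ => ?_
      rw [if_neg (fun h => hj h.1.symm)]
    · simp
  simp only [h3]
  simp
  field_simp

lemma main_bound {d dE t : ℕ} (hd : 1 ≤ d) (hE : 2 ≤ dE) (ψ : Fin dE → ℂ)
    (hψ : ∑ x, ‖ψ x‖ ^ 2 = 1) (k : ℕ) : hsNormSq (Tc d dE t ψ ^ (k + 1)) ≤ hsNormSq (TH d t) := by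
  have h1 := CB_pow (CB_Tc (t := t) hd (by omega) ψ hψ) (TP_Tc ψ hψ) k
  have h2 := hs_le h1.1 h1.2
  have h3 := num_ineq d dE hd hE (fun t => (Module.finrank ℂ (WW (Fin t) d) : ℝ))
    (fun t => Nat.cast_nonneg _) (fun t ht => by
      rw [rank_stable (by simpa using ht), Fintype.card_fin]) (fun t => by
      have h4 := rank_rec (S := Fin t) (d := d) hd
      rw [rank_congr (finSuccEquiv t)]
      simpa using h4) t
  have h4 := TH_ge (d := d) (t := t)
  have hN : d ≤ d * dE := Nat.le_mul_of_pos_right d (by omega)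
  have h5 : (0 : ℝ) < (eMin (d * dE) d t : ℝ) := by
    have : 0 < eMin (d * dE) d t := by
      unfold eMin
      refine Finset.prod_pos fun s _ => ?_
      have := Nat.mod_lt s (show 0 < d by omega)
      exact Nat.sub_pos_of_lt (lt_of_lt_of_le (lt_of_lt_of_le this hN) (Nat.le_add_right _ _))
    exact_mod_cast this
  refine h2.trans (le_trans ?_ h4)
  rw [div_mul_eq_mul_div, div_le_iff₀ h5]
  exact h3

/-- **Main result** (a complete answer to Q1, in the affirmative).  For all `d, d_E, t, k ≥ 1` and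
every unit vector `ψ` of the environment: the squared Hilbert-Schmidt norm of the `t`-th moment
operator of the depolarizing ensemble is `1`, and
`1 ≤ N_{t,k}(d, d_E) ≤ ‖T_Haar‖²`, where `T_Haar` is the `t`-th moment operator of the ensemble
`X ↦ U X U†`, `U` Haar distributed in `U(d)`. -/
theorem result : ∀ d dE t k : ℕ, 1 ≤ d → 1 ≤ dE → 1 ≤ t → 1 ≤ k →
    ∀ ψ : Fin dE → ℂ, ∑ x, ‖ψ x‖ ^ 2 = 1 →
      hsNormSq (momentOp (Measure.dirac ()) t (fun _ : Unit => depolarize d)) = 1 ∧
      1 ≤ N t k d dE ψ ∧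
      N t k d dE ψ ≤ hsNormSq (momentOp (haarU (Fin d)) t
        (fun U => unitaryChannel (U : Matrix (Fin d) (Fin d) ℂ))) := by
  intro d dE t k hd hE ht hk ψ hψ
  obtain ⟨m, rfl⟩ : ∃ m, k = m + 1 := ⟨k - 1, by omega⟩
  have hTH : momentOp (haarU (Fin d)) t
      (fun U => unitaryChannel (U : Matrix (Fin d) (Fin d) ℂ)) = TH d t := rfl
  have hN : N t (m + 1) d dE ψ = hsNormSq (Tc d dE t ψ ^ (m + 1)) := rfl
  rw [hTH, hN]
  have h1 := CB_pow (CB_Tc (t := t) hd hE ψ hψ) (TP_Tc ψ hψ) m
  refine ⟨dep_norm hd, hs_ge hd h1.2, ?_⟩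
  by_cases h : 2 ≤ dE
  · exact main_bound hd h ψ hψ m
  · have h' : dE = 1 := by omega
    subst h'
    rw [Tc_one ψ hψ, TH_pow]

end Pool.Agent.Results.MP_a4cf75_mp.NormHierarchy
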